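import Mathlib

/-!
MP_90d669_co: common definitions for the lower bound on the number of realizable k-spectra.
-/

namespace Pool.Agent.H37.SP

open Finset

/-- number of edges of `G` spanned by the vertex set `A` -/
noncomputable def ecount {V : Type*} (G : SimpleGraph V) (A : Finset V) : ℕ :=
  {e ∈ G.edgeSet | ∀ v ∈ e, v ∈ A}.ncard

/-- the `k`-spectrum of `G` -/
def spec {V : Type*} (k : ℕ) (G : SimpleGraph V) : Set ℕ :=
  {q | ∃ A : Finset V, A.card = k ∧ ecount G A = q}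

/-- `S` is a realizable `k`-spectrum -/
def Realizable (k : ℕ) (S : Set ℕ) : Prop :=
  ∃ N : ℕ, k ≤ N ∧ ∃ G : SimpleGraph (Fin N), spec k G = S

/-- number of realizable `k`-spectra -/
noncomputable def nk (k : ℕ) : ℕ := {S : Set ℕ | Realizable k S}.ncard

/-- A set of signals `U` in the box `[0,w) × [0,H)` with velocities `s`: the half line leaving
`p` with velocity `s p`, thickened by `μ ^ 2` after time `μ`, never meets `U` again. -/
structure Design (w H : ℕ) (U : Finset (ℕ × ℕ)) (s : ℕ × ℕ → ℤ) : Prop where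
  lt_w : ∀ p ∈ U, p.1 < w
  lt_H : ∀ p ∈ U, p.2 < H
  s_le : ∀ p ∈ U, |s p| * w ≤ H
  sep : ∀ p ∈ U, ∀ q ∈ U, ∀ μ e : ℕ, 1 ≤ μ → q.1 = p.1 + μ → e ≤ μ ^ 2 →
    (q.2 : ℤ) ≠ p.2 + s p * μ - e

end Pool.Agent.H37.SP
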