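import Mathlib

/-!
MP_90d669_co: a set of integers without differences equal to a square (base 65 digits,
after Ruzsa), used for the arithmetic of the signals.
-/

namespace Pool.Agent.H37.SP

/-- seven residues modulo 65, no two of them differing by a non-zero square -/
def S65 : Finset ℕ := {0, 2, 5, 22, 24, 43, 46}

theorem S65_card : S65.card = 7 := by decide

theorem S65_lt {s : ℕ} (h : s ∈ S65) : s < 65 := by
  revert s; decide

theorem S65_sq : ∀ s ∈ S65, ∀ s' ∈ S65, ∀ r ∈ Finset.range 65, r ≠ 0 →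
    (s' + r * r) % 65 ≠ s := by
  decide

/-- numbers below `4225^L` with even base 65 digits in `S65` -/
def AL : ℕ → Finset ℕ
  | 0 => {0}
  | (L + 1) => ((S65 ×ˢ Finset.range 65) ×ˢ AL L).image
      (fun p => p.1.1 + 65 * p.1.2 + 4225 * p.2)

theorem AL_lt : ∀ (L : ℕ) (a : ℕ), a ∈ AL L → a < 4225 ^ L := by
  intro L
  induction L with
  | zero => intro a ha; simp [AL] at ha; simp [ha]
  | succ L ih =>
    intro a ha
    simp only [AL, Finset.mem_image, Finset.mem_product, Finset.mem_range] at ha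
    obtain ⟨p, ⟨⟨h1, h2⟩, h3⟩, rfl⟩ := ha
    have h4 := ih _ h3
    have h5 := S65_lt h1
    rw [pow_succ]
    omega

theorem AL_card (L : ℕ) : (AL L).card = 455 ^ L := by
  induction L with
  | zero => simp [AL]
  | succ L ih =>
    rw [AL, Finset.card_image_of_injOn, Finset.card_product, Finset.card_product, ih, S65_card,
      Finset.card_range, pow_succ]
    · ring
    · intro p hp p' hp' h
      simp only [Finset.coe_product, Set.mem_prod, Finset.mem_coe, Finset.mem_range] at hp hp'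
      obtain ⟨⟨h1, h2⟩, h3⟩ := hp
      obtain ⟨⟨h1', h2'⟩, h3'⟩ := hp'
      have h5 := S65_lt h1
      have h5' := S65_lt h1'
      simp only at h
      have e1 : p.1.1 = p'.1.1 := by omega
      have e2 : p.1.2 = p'.1.2 := by omega
      have e3 : p.2 = p'.2 := by omega
      exact Prod.ext (Prod.ext e1 e2) e3

/-- even base-65 digits in `S65` -/
def good (L F : ℕ) : Prop := ∀ i < L, (F / 4225 ^ i) % 65 ∈ S65

theorem AL_good : ∀ (L : ℕ) (a : ℕ), a ∈ AL L → good L a := by
  intro L
  induction L with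
  | zero => intro a _ i hi; omega
  | succ L ih =>
    intro a ha i hi
    simp only [AL, Finset.mem_image, Finset.mem_product, Finset.mem_range] at ha
    obtain ⟨p, ⟨⟨h1, h2⟩, h3⟩, rfl⟩ := ha
    have h5 := S65_lt h1
    rcases i with _ | i
    · simp only [pow_zero, Nat.div_one]
      have : (p.1.1 + 65 * p.1.2 + 4225 * p.2) % 65 = p.1.1 := by omega
      rw [this]; exact h1
    · have h6 : (p.1.1 + 65 * p.1.2 + 4225 * p.2) / 4225 ^ (i + 1) = p.2 / 4225 ^ i := by
        rw [pow_succ', ← Nat.div_div_eq_div_mul]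
        congr 1
        omega
      rw [h6]
      exact ih _ h3 i (by omega)

theorem good_mod {L F : ℕ} (h : F % 4225 ^ L ∈ AL L) : good L F := by
  intro i hi
  have h1 := AL_good L _ h i hi
  have h2 : F = F % 4225 ^ L + 4225 ^ i * (4225 ^ (L - i) * (F / 4225 ^ L)) := by
    rw [← mul_assoc, ← pow_add, Nat.add_sub_of_le hi.le]
    exact (Nat.mod_add_div _ _).symm
  have h3 : F / 4225 ^ i = F % 4225 ^ L / 4225 ^ i + 4225 ^ (L - i) * (F / 4225 ^ L) := by
    conv_lhs => rw [h2]
    rw [Nat.add_mul_div_left _ _ (by positivity)]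
  rw [h3]
  obtain ⟨j, hj⟩ : ∃ j, L - i = j + 1 := ⟨L - i - 1, by omega⟩
  have h4 : 4225 ^ (L - i) * (F / 4225 ^ L) = 65 * (65 * 4225 ^ j * (F / 4225 ^ L)) := by
    rw [hj, pow_succ]; ring
  rw [h4, Nat.add_mul_mod_self_left]
  exact h1

theorem no_square {L F F' μ : ℕ} (hF : good L F) (hF' : good L F') (h : F = F' + μ * μ)
    (h0 : 0 < μ) (h1 : μ < 65 ^ L) : False := by
  obtain ⟨v, u, hu, rfl⟩ := Nat.exists_eq_pow_mul_and_not_dvd h0.ne' 65 (by norm_num)
  have hu0 : 0 < u := Nat.pos_of_ne_zero (by rintro rfl; exact hu (dvd_zero _))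
  have hv : v < L := by
    by_contra hc
    push Not at hc
    have : 65 ^ L ≤ 65 ^ v := Nat.pow_le_pow_right (by norm_num) hc
    nlinarith
  have e1 : 65 ^ v * u * (65 ^ v * u) = 4225 ^ v * (u * u) := by
    have : (4225 : ℕ) ^ v = 65 ^ v * 65 ^ v := by rw [← mul_pow]; norm_num
    rw [this]; ring
  have e2 : F / 4225 ^ v = F' / 4225 ^ v + u * u := by
    rw [h, e1, Nat.add_mul_div_left _ _ (by positivity)]
  have e3 : (F / 4225 ^ v) % 65 = ((F' / 4225 ^ v) % 65 + (u % 65) * (u % 65)) % 65 := by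
    rw [e2]
    simp [Nat.add_mod, Nat.mul_mod]
  exact S65_sq _ (hF v hv) _ (hF' v hv) (u % 65)
    (Finset.mem_range.2 (Nat.mod_lt _ (by norm_num)))
    (fun hc => hu (Nat.dvd_of_mod_eq_zero hc)) e3.symm

end Pool.Agent.H37.SP
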