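import Pool.Agent.H37.SP.Union

/-!
MP_90d669_co, module G4: a design gives `2 ^ |U|` realizable spectra.
-/

namespace Pool.Agent.H37.SP

open Finset

theorem realizable_bound {k : ℕ} {S : Set ℕ} (h : Realizable k S) : S ⊆ Set.Iic (k * k) := by
  classical
  obtain ⟨N, _, G, rfl⟩ := h
  rintro q ⟨A, hA, rfl⟩
  have h1 := pcount_le G A
  rw [pcount_eq, hA] at h1
  have h2 : k * (k - 1) ≤ k * k := Nat.mul_le_mul_left _ (Nat.sub_le _ _)
  simp only [Set.mem_Iic]
  omega

theorem realizable_finite (k : ℕ) : {S : Set ℕ | Realizable k S}.Finite :=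
  (Set.finite_Iic (k * k)).finite_subsets.subset fun _ hS => realizable_bound hS

/-- if every subset of `Z` is the trace of a realizable spectrum then `2 ^ |Z| ≤ n_k` -/
theorem two_pow_le_nk (k : ℕ) (Z : Finset ℕ)
    (h : ∀ P ⊆ Z, ∃ N : ℕ, k ≤ N ∧ ∃ G : SimpleGraph (Fin N),
      spec k G ∩ (Z : Set ℕ) = (P : Set ℕ)) : 2 ^ Z.card ≤ nk k := by
  classical
  have h' : ∀ P : Finset ℕ, ∃ S : Set ℕ, P ⊆ Z → (Realizable k S ∧ S ∩ (Z : Set ℕ) = P) := by
    intro P
    by_cases hP : P ⊆ Z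
    · obtain ⟨N, hN, G, hG⟩ := h P hP
      exact ⟨spec k G, fun _ => ⟨⟨N, hN, G, rfl⟩, hG⟩⟩
    · exact ⟨∅, fun h => absurd h hP⟩
  choose F hF using h'
  have h1 : (Z.powerset : Set (Finset ℕ)).ncard ≤ nk k := by
    refine Set.ncard_le_ncard_of_injOn F ?_ ?_ (realizable_finite k)
    · intro P hP
      exact (hF P (by simpa using hP)).1
    · intro P hP P' hP' he
      have e1 := (hF P (by simpa using hP)).2
      have e2 := (hF P' (by simpa using hP')).2
      rw [he] at e1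
      have : (P : Set ℕ) = (P' : Set ℕ) := e1.symm.trans e2
      exact_mod_cast this
  rw [Set.ncard_coe_finset, Finset.card_powerset] at h1
  exact h1

/-- position of the signal `p` -/
def zv (κ B : ℕ) (p : ℕ × ℕ) : ℕ := B - (κ * p.1 + p.2)

/-- the multiplier attached to the signal `z` -/
def rv (κ B : ℕ) (s : ℕ × ℕ → ℤ) (z : ℕ) : ℕ :=
  ((κ : ℤ) + s ((B - z) / κ, (B - z) % κ) - 1).toNat

open Classical in
theorem design_nk (k w H : ℕ) (U : Finset (ℕ × ℕ)) (s : ℕ × ℕ → ℤ) (hD : Design w H U s)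
    (hU : U.Nonempty) (hw : 1 ≤ w) (hwH : w ^ 2 ≤ H) (hk : 5000 * H ≤ k)
    (hJ : ∀ ρ z : ℕ, 99 * (k / 20) ≤ 100 * ρ → 100 * ρ ≤ 101 * (k / 20) →
      346 * (k / 20 * k) ≤ 40 * z → 4 * z ≤ 35 * (k / 20 * k) →
      ∃ J : SimpleGraph (Fin k), ecount J univ = z ∧
        ∀ v, J.degree v = 17 * ρ ∨ J.degree v = 17 * ρ + 1 ∨
          J.degree v = 18 * ρ ∨ J.degree v = 18 * ρ + 1) :
    2 ^ U.card ≤ nk k := by
  have hwH' : w ≤ H := by nlinarith
  have hH1 : 1 ≤ H := le_trans hw hwH'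
  obtain ⟨κ, hκ⟩ : ∃ κ, κ = k / 20 := ⟨_, rfl⟩
  rw [← hκ] at hJ
  have hκ1 : 20 * κ ≤ k := by rw [hκ]; omega
  have hκ2 : k ≤ 20 * κ + 19 := by rw [hκ]; omega
  have hκH : 240 * H ≤ κ := by omega
  obtain ⟨B, hB⟩ : ∃ B, B = 35 * (κ * k) / 4 := ⟨_, rfl⟩
  have hB1 : 4 * B ≤ 35 * (κ * k) := by rw [hB]; omega
  have hB2 : 35 * (κ * k) ≤ 4 * B + 3 := by rw [hB]; omega
  have hkk : 5000 * (κ * H) ≤ κ * k := by
    calc 5000 * (κ * H) = κ * (5000 * H) := by ring
      _ ≤ κ * k := Nat.mul_le_mul_left _ hk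
  have hκHH : H ≤ κ * H := Nat.le_mul_of_pos_left _ (by omega)
  have hpos : ∀ p ∈ U, κ * p.1 + p.2 ≤ 2 * (κ * H) := by
    intro p hp
    have h1 := hD.lt_w p hp
    have h2 := hD.lt_H p hp
    have h3 : κ * p.1 ≤ κ * H := Nat.mul_le_mul_left _ (by omega)
    omega
  have hple : ∀ p ∈ U, κ * p.1 + p.2 ≤ B := by
    intro p hp
    have := hpos p hp
    omega
  have hinv : ∀ p ∈ U, ((B - zv κ B p) / κ, (B - zv κ B p) % κ) = p := by
    intro p hp
    have h1 := hple p hp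
    have h2 := hD.lt_H p hp
    have h3 : B - zv κ B p = κ * p.1 + p.2 := by unfold zv; omega
    have h4 : p.2 < κ := by omega
    rw [h3]
    refine Prod.ext ?_ ?_
    · change (κ * p.1 + p.2) / κ = p.1
      rw [Nat.mul_add_div (by omega), Nat.div_eq_of_lt h4, add_zero]
    · change (κ * p.1 + p.2) % κ = p.2
      rw [Nat.mul_add_mod, Nat.mod_eq_of_lt h4]
  have hinj : Set.InjOn (zv κ B) (U : Set (ℕ × ℕ)) := by
    intro p hp q hq h
    rw [← hinv p hp, ← hinv q hq, h]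
  have hsH : ∀ p ∈ U, |s p| ≤ H := by
    intro p hp
    have h1 := hD.s_le p hp
    have h2 : (1 : ℤ) ≤ w := by exact_mod_cast hw
    nlinarith [abs_nonneg (s p)]
  have hρ : ∀ p ∈ U, ((rv κ B s (zv κ B p) : ℕ) : ℤ) = κ + s p - 1 := by
    intro p hp
    unfold rv
    rw [hinv p hp]
    have h1 := hsH p hp
    rw [abs_le] at h1
    have h2 : (240 : ℤ) * H ≤ κ := by exact_mod_cast hκH
    have h3 : (1 : ℤ) ≤ H := by exact_mod_cast hH1
    rw [Int.toNat_of_nonneg (by linarith)]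
  have hρ1 : ∀ p ∈ U, 99 * κ ≤ 100 * rv κ B s (zv κ B p) ∧
      100 * rv κ B s (zv κ B p) ≤ 101 * κ := by
    intro p hp
    have h0 := hρ p hp
    have h1 := hsH p hp
    rw [abs_le] at h1
    have h2 : (240 : ℤ) * H ≤ κ := by exact_mod_cast hκH
    have h3 : (1 : ℤ) ≤ H := by exact_mod_cast hH1
    constructor <;> zify <;> rw [h0] <;> linarith
  have hz1 : ∀ p ∈ U, 346 * (κ * k) ≤ 40 * zv κ B p := by
    intro p hp
    have h1 := hpos p hp
    have h2 : zv κ B p = B - (κ * p.1 + p.2) := rfl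
    omega
  have hz2 : ∀ p ∈ U, 4 * zv κ B p ≤ 35 * (κ * k) := by
    intro p hp
    have h2 : zv κ B p = B - (κ * p.1 + p.2) := rfl
    omega
  -- the gadgets
  have hJ' : ∀ z : ℕ, ∃ J : SimpleGraph (Fin k), z ∈ U.image (zv κ B) →
      (ecount J univ = z ∧ ∀ v, J.degree v = 17 * rv κ B s z ∨ J.degree v = 17 * rv κ B s z + 1 ∨
          J.degree v = 18 * rv κ B s z ∨ J.degree v = 18 * rv κ B s z + 1) := by
    intro z
    by_cases hz : z ∈ U.image (zv κ B)
    · obtain ⟨p, hp, rfl⟩ := Finset.mem_image.1 hz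
      obtain ⟨J, hJ1, hJ2⟩ := hJ (rv κ B s (zv κ B p)) (zv κ B p) (hρ1 p hp).1 (hρ1 p hp).2
        (hz1 p hp) (hz2 p hp)
      exact ⟨J, fun _ => ⟨hJ1, hJ2⟩⟩
    · exact ⟨⊥, fun h => absurd h hz⟩
  choose J hJJ using hJ'
  rw [← Finset.card_image_of_injOn hinj]
  refine two_pow_le_nk k _ fun P hP =>
    union_spectrum k (by omega) (U.image (zv κ B)) (hU.image _) J (rv κ B s)
      (fun z hz => (hJJ z hz).1) (fun z hz => (hJJ z hz).2) ?_ ?_ P hP
  · intro z hz
    obtain ⟨p, hp, rfl⟩ := Finset.mem_image.1 hz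
    have h1 := hz1 p hp
    have h2 : k * k ≤ (20 * κ + 19) * k := Nat.mul_le_mul_right _ hκ2
    have h3 : 240 * k ≤ κ * k := Nat.mul_le_mul_right _ (by omega)
    have h4 : (20 * κ + 19) * k = 20 * (κ * k) + 19 * k := by ring
    omega
  · intro z hz z' hz' m μ t hm1 hm2 hμ1 hμ2 ht1 ht2 heq
    obtain ⟨p, hp, rfl⟩ := Finset.mem_image.1 hz
    obtain ⟨q, hq, rfl⟩ := Finset.mem_image.1 hz'
    rw [hρ p hp] at heq
    have hzp : ((zv κ B p : ℕ) : ℤ) = B - (κ * p.1 + p.2) := by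
      unfold zv
      rw [Nat.cast_sub (hple p hp)]
      push_cast
      ring
    have hzq : ((zv κ B q : ℕ) : ℤ) = B - (κ * q.1 + q.2) := by
      unfold zv
      rw [Nat.cast_sub (hple q hq)]
      push_cast
      ring
    rw [hzp, hzq] at heq
    have hX : (κ : ℤ) * (q.1 - p.1 - μ) = p.2 - q.2 + μ * s p - (μ + t) := by
      linear_combination -heq
    have c1 : (p.1 : ℤ) < w := by exact_mod_cast hD.lt_w p hp
    have c2 : (p.2 : ℤ) < H := by exact_mod_cast hD.lt_H p hp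
    have c3 : (q.1 : ℤ) < w := by exact_mod_cast hD.lt_w q hq
    have c4 : (q.2 : ℤ) < H := by exact_mod_cast hD.lt_H q hq
    have c5 : (0 : ℤ) ≤ p.1 := Int.natCast_nonneg _
    have c6 : (0 : ℤ) ≤ p.2 := Int.natCast_nonneg _
    have c7 : (0 : ℤ) ≤ q.1 := Int.natCast_nonneg _
    have c8 : (0 : ℤ) ≤ q.2 := Int.natCast_nonneg _
    have c9 : (17 : ℤ) * m ≤ μ := by exact_mod_cast hμ1
    have c10 : (1 : ℤ) ≤ m := by exact_mod_cast hm1
    have c11 : (2 : ℤ) * m ≤ k := by exact_mod_cast hm2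
    have c12 : (1 : ℤ) ≤ w := by exact_mod_cast hw
    have c13 : (w : ℤ) ^ 2 ≤ H := by exact_mod_cast hwH
    have c14 : (w : ℤ) ≤ H := by exact_mod_cast hwH'
    have c15 : (240 : ℤ) * H ≤ κ := by exact_mod_cast hκH
    have c16 : (5000 : ℤ) * H ≤ k := by exact_mod_cast hk
    have c17 : (k : ℤ) ≤ 20 * κ + 19 := by exact_mod_cast hκ2
    have c18 : |s p| * w ≤ H := hD.s_le p hp
    have c19 := hsH p hp
    have c20 : (1 : ℤ) ≤ H := by linarith
    have c21 : 0 ≤ |s p| := abs_nonneg _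
    have hμs : |(μ : ℤ) * s p| = μ * |s p| := by
      rw [abs_mul, abs_of_nonneg (Int.natCast_nonneg _)]
    by_cases hμw : (μ : ℤ) ≤ 10 * w
    · have d1 : |(μ : ℤ) * s p| ≤ 10 * H := by
        rw [hμs]
        have := mul_le_mul_of_nonneg_right hμw c21
        linarith
      rw [abs_le] at d1
      have d2 : (m : ℤ) ≤ w := by linarith
      have d3 : (m : ℤ) * (m - 1) ≤ H := by
        have : (m : ℤ) * (m - 1) ≤ w * w :=
          mul_le_mul d2 (by linarith) (by linarith) (by linarith)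
        have h2 : (w : ℤ) * w = w ^ 2 := by ring
        linarith
      have d4 : t ≤ H := le_trans ht2 d3
      have d5 : (q.1 : ℤ) - p.1 - μ = 0 := by
        by_contra hne
        rcases lt_or_gt_of_ne hne with h | h
        · have h1 : (q.1 : ℤ) - p.1 - μ ≤ -1 := by omega
          have := mul_le_mul_of_nonneg_left h1 (Int.natCast_nonneg κ)
          linarith [d1.1, d1.2]
        · have h1 : (1 : ℤ) ≤ (q.1 : ℤ) - p.1 - μ := by omega
          have := mul_le_mul_of_nonneg_left h1 (Int.natCast_nonneg κ)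
          linarith [d1.1, d1.2]
      rw [d5, mul_zero] at hX
      have e0 : 0 ≤ (μ : ℤ) + t := by linarith
      have e1 : (μ : ℤ) + t ≤ μ ^ 2 := by
        have h1 : (m : ℤ) * (m - 1) ≤ μ * (μ - 1) :=
          mul_le_mul (by linarith) (by linarith) (by linarith) (by linarith)
        have h2 : (μ : ℤ) * (μ - 1) = μ ^ 2 - μ := by ring
        linarith
      obtain ⟨e, he⟩ := Int.eq_ofNat_of_zero_le e0
      refine hD.sep p hp q hq μ e ?_ ?_ ?_ ?_
      · have : (1 : ℤ) ≤ μ := by linarith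
        exact_mod_cast this
      · have : (q.1 : ℤ) = p.1 + μ := by linarith
        exact_mod_cast this
      · rw [he] at e1
        exact_mod_cast e1
      · rw [← he]
        linarith
    · push Not at hμw
      have d1 : |(μ : ℤ) * s p| ≤ μ * H := by
        rw [hμs]
        exact mul_le_mul_of_nonneg_left c19 (Int.natCast_nonneg _)
      rw [abs_le] at d1
      have d2 : (κ : ℤ) * (q.1 - p.1 - μ) ≤ κ * (w - μ) :=
        mul_le_mul_of_nonneg_left (by linarith) (Int.natCast_nonneg _)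
      have d3 : 34 * ((m : ℤ) * (m - 1)) ≤ k * μ := by
        have h1 : (m : ℤ) * (m - 1) ≤ m * m :=
          mul_le_mul_of_nonneg_left (by linarith) (by linarith)
        have h2 : (2 * (m : ℤ)) * (17 * m) ≤ k * μ :=
          mul_le_mul c11 c9 (by positivity) (by positivity)
        linarith
      have d4 : (k : ℤ) * μ ≤ (20 * κ + 19) * μ :=
        mul_le_mul_of_nonneg_right c17 (Int.natCast_nonneg _)
      have d7 : (0 : ℤ) < μ := by linarith
      have d5 : (240 : ℤ) * (H * μ) ≤ κ * μ := by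
        have := mul_le_mul_of_nonneg_right c15 d7.le
        linarith
      have d6 : (10 : ℤ) * (κ * w) ≤ κ * μ := by
        have := mul_le_mul_of_nonneg_left hμw.le (Int.natCast_nonneg κ)
        linarith
      have d8 : (H : ℤ) ≤ H * μ := le_mul_of_one_le_right (by linarith) (by linarith)
      have d9 : (μ : ℤ) ≤ H * μ := le_mul_of_one_le_left (by linarith) (by linarith)
      linarith [d1.1, d1.2]

end Pool.Agent.H37.SP
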