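import Pool.Agent.H37.SP.Defs

/-!
MP_90d669_co, module G3: the disjoint union of the graphs `J z`, `z ∈ P`, has a `k`-spectrum
whose trace on the signals is exactly `P`.
-/

namespace Pool.Agent.H37.SP

open Finset

section pairs

variable {V : Type*} [DecidableEq V]

open Classical in
/-- ordered adjacent pairs inside `A` -/
noncomputable def pcount (G : SimpleGraph V) (A : Finset V) : ℕ :=
  ∑ u ∈ A, ∑ v ∈ A, if G.Adj u v then 1 else 0

theorem pcount_eq [Fintype V] (G : SimpleGraph V) (A : Finset V) :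
    pcount G A = 2 * ecount G A := by
  classical
  let G' : SimpleGraph V :=
    { Adj := fun u v => G.Adj u v ∧ u ∈ A ∧ v ∈ A
      symm := ⟨fun u v h => ⟨h.1.symm, h.2.2, h.2.1⟩⟩
      loopless := ⟨fun u h => G.loopless.irrefl u h.1⟩ }
  have h1 : {e ∈ G.edgeSet | ∀ v ∈ e, v ∈ A} = G'.edgeSet := by
    ext e
    induction e using Sym2.ind with
    | _ u v => simp [G']
  have h2 : ecount G A = G'.edgeFinset.card := by
    rw [ecount, h1, ← SimpleGraph.coe_edgeFinset, Set.ncard_coe_finset]
  rw [h2, ← SimpleGraph.sum_degrees_eq_twice_card_edges]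
  have h3 : ∀ u, G'.degree u = if u ∈ A then ∑ v ∈ A, (if G.Adj u v then 1 else 0) else 0 := by
    intro u
    rw [← SimpleGraph.card_neighborFinset_eq_degree]
    by_cases hu : u ∈ A
    · rw [if_pos hu, ← Finset.card_filter]
      congr 1
      ext v
      simp [G', hu, and_comm]
    · rw [if_neg hu, Finset.card_eq_zero]
      ext v
      simp [G', hu]
  rw [Finset.sum_congr rfl (fun u _ => h3 u)]
  rw [pcount, Finset.sum_ite_mem, Finset.univ_inter]

theorem pcount_le (G : SimpleGraph V) (A : Finset V) : pcount G A ≤ A.card * (A.card - 1) := by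
  classical
  rw [pcount]
  refine (Finset.sum_le_card_nsmul A _ (A.card - 1) ?_).trans (by simp)
  intro u hu
  rw [← Finset.card_filter]
  refine (Finset.card_le_card (t := A.erase u) ?_).trans (by rw [Finset.card_erase_of_mem hu])
  intro v hv
  rw [Finset.mem_filter] at hv
  rw [Finset.mem_erase]
  exact ⟨fun h => G.loopless.irrefl u (by rw [h] at hv; exact hv.2), hv.1⟩

theorem pcount_compl [Fintype V] (G : SimpleGraph V) [DecidableRel G.Adj] (M : Finset V) :
    pcount G Mᶜ + 2 * ∑ v ∈ M, G.degree v = pcount G univ + pcount G M := by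
  classical
  have hdeg : ∀ v, G.degree v = ∑ u, if G.Adj v u then 1 else 0 := by
    intro v
    rw [← SimpleGraph.card_neighborFinset_eq_degree, ← Finset.card_filter]
    congr 1
    ext u
    simp
  let f : V → V → ℕ := fun u v => if G.Adj u v then 1 else 0
  have hf : ∀ u v, f u v = f v u := by
    intro u v
    simp only [f, G.adj_comm]
  have e1 : pcount G Mᶜ = ∑ u ∈ Mᶜ, ∑ v ∈ Mᶜ, f u v := by
    unfold pcount
    refine Finset.sum_congr rfl fun u _ => Finset.sum_congr rfl fun v _ => ?_
    by_cases h : G.Adj u v <;> simp [f, h]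
  have e2 : pcount G M = ∑ u ∈ M, ∑ v ∈ M, f u v := by
    unfold pcount
    refine Finset.sum_congr rfl fun u _ => Finset.sum_congr rfl fun v _ => ?_
    by_cases h : G.Adj u v <;> simp [f, h]
  have e3 : pcount G univ = ∑ u, ∑ v, f u v := by
    unfold pcount
    refine Finset.sum_congr rfl fun u _ => Finset.sum_congr rfl fun v _ => ?_
    by_cases h : G.Adj u v <;> simp [f, h]
  have e4 : ∑ v ∈ M, G.degree v = ∑ u ∈ M, ∑ v, f u v := by
    refine Finset.sum_congr rfl fun u _ => ?_
    rw [hdeg]
  rw [e1, e2, e3, e4]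
  have s1 : ∀ g : V → ℕ, ∑ v, g v = ∑ v ∈ M, g v + ∑ v ∈ Mᶜ, g v := by
    intro g
    rw [Finset.sum_add_sum_compl]
  have t1 : ∑ u, ∑ v, f u v = ∑ u ∈ M, ∑ v ∈ M, f u v + ∑ u ∈ M, ∑ v ∈ Mᶜ, f u v
      + (∑ u ∈ Mᶜ, ∑ v ∈ M, f u v + ∑ u ∈ Mᶜ, ∑ v ∈ Mᶜ, f u v) := by
    rw [s1 (fun u => ∑ v, f u v)]
    congr 1
    · rw [← Finset.sum_add_distrib]
      exact Finset.sum_congr rfl fun u _ => s1 _
    · rw [← Finset.sum_add_distrib]
      exact Finset.sum_congr rfl fun u _ => s1 _
  have t2 : ∑ u ∈ M, ∑ v, f u v = ∑ u ∈ M, ∑ v ∈ M, f u v + ∑ u ∈ M, ∑ v ∈ Mᶜ, f u v := by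
    rw [← Finset.sum_add_distrib]
    exact Finset.sum_congr rfl fun u _ => s1 _
  have t3 : ∑ u ∈ Mᶜ, ∑ v ∈ M, f u v = ∑ u ∈ M, ∑ v ∈ Mᶜ, f u v := by
    rw [Finset.sum_comm]
    exact Finset.sum_congr rfl fun u _ => Finset.sum_congr rfl fun v _ => hf _ _
  rw [t1, t2, t3]
  ring

end pairs

/-- transport of the spectrum to `Fin N` -/
theorem spec_transport {V : Type*} [Fintype V] (k : ℕ) (G : SimpleGraph V) :
    ∃ G' : SimpleGraph (Fin (Fintype.card V)), spec k G' = spec k G := by
  classical
  let φ : V ≃ Fin (Fintype.card V) := Fintype.equivFin V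
  refine ⟨G.map φ.toEmbedding, ?_⟩
  have key : ∀ A : Finset V, ecount (G.map φ.toEmbedding) (A.map φ.toEmbedding) = ecount G A := by
    intro A
    have h1 : 2 * ecount (G.map φ.toEmbedding) (A.map φ.toEmbedding) = 2 * ecount G A := by
      rw [← pcount_eq, ← pcount_eq]
      unfold pcount
      rw [Finset.sum_map]
      refine Finset.sum_congr rfl fun u _ => ?_
      rw [Finset.sum_map]
      refine Finset.sum_congr rfl fun v _ => ?_
      have h := SimpleGraph.map_adj_apply (G := G) (f := φ.toEmbedding) (a := u) (b := v)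
      by_cases h' : G.Adj u v
      · rw [if_pos h', if_pos (h.2 h')]
      · rw [if_neg h', if_neg (fun hc => h' (h.1 hc))]
    omega
  ext q
  constructor
  · rintro ⟨A, hA, rfl⟩
    refine ⟨A.map φ.symm.toEmbedding, by simpa using hA, ?_⟩
    rw [← key]
    congr 1
    ext x
    simp
  · rintro ⟨A, hA, rfl⟩
    exact ⟨A.map φ.toEmbedding, by simpa using hA, key A⟩

/-- disjoint union of the graphs `J z`, `z ∈ P` (empty graphs for the other `z ∈ Z`) -/
def unionGraph {k : ℕ} (Z P : Finset ℕ) (J : ℕ → SimpleGraph (Fin k)) :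
    SimpleGraph (Z × Fin k) where
  Adj x y := x.1 = y.1 ∧ x.1.1 ∈ P ∧ (J x.1.1).Adj x.2 y.2
  symm := ⟨fun x y h => ⟨h.1.symm, by rw [← h.1]; exact h.2.1, by
    have := h.2.2.symm
    rwa [h.1] at this⟩⟩
  loopless := ⟨fun x h => (J x.1.1).loopless.irrefl x.2 h.2.2⟩

/-- the slice of a vertex set -/
def slice {k : ℕ} {Z : Finset ℕ} (A : Finset (Z × Fin k)) (z : Z) : Finset (Fin k) :=
  univ.filter (fun i => (z, i) ∈ A)

theorem sum_slice {k : ℕ} {Z : Finset ℕ} (A : Finset (Z × Fin k)) (g : Z × Fin k → ℕ) :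
    ∑ x ∈ A, g x = ∑ z : Z, ∑ i ∈ slice A z, g (z, i) := by
  classical
  have h1 : ∑ x ∈ A, g x = ∑ x : Z × Fin k, if x ∈ A then g x else 0 := by
    rw [Finset.sum_ite_mem, Finset.univ_inter]
  rw [h1, Fintype.sum_prod_type]
  refine Finset.sum_congr rfl fun z _ => ?_
  rw [slice, Finset.sum_filter]

theorem pcount_union {k : ℕ} (Z P : Finset ℕ) (J : ℕ → SimpleGraph (Fin k))
    (A : Finset (Z × Fin k)) :
    pcount (unionGraph Z P J) A =
      ∑ z : Z, if z.1 ∈ P then pcount (J z.1) (slice A z) else 0 := by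
  classical
  unfold pcount
  rw [sum_slice]
  refine Finset.sum_congr rfl fun z _ => ?_
  by_cases hz : z.1 ∈ P
  · rw [if_pos hz]
    refine Finset.sum_congr rfl fun i _ => ?_
    rw [sum_slice]
    rw [Finset.sum_eq_single z]
    · refine Finset.sum_congr rfl fun j _ => ?_
      simp [unionGraph, hz]
    · intro z' _ hne
      refine Finset.sum_eq_zero fun j _ => ?_
      rw [if_neg]
      rintro ⟨h, _⟩
      exact hne h.symm
    · simp
  · rw [if_neg hz]
    refine Finset.sum_eq_zero fun i _ => Finset.sum_eq_zero fun y _ => ?_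
    rw [if_neg]
    rintro ⟨_, h, _⟩
    exact hz h

theorem card_slice {k : ℕ} {Z : Finset ℕ} (A : Finset (Z × Fin k)) :
    ∑ z : Z, (slice A z).card = A.card := by
  have h := sum_slice A (fun _ => 1)
  simp only [Finset.sum_const, smul_eq_mul, mul_one] at h
  exact h.symm

/-- `∑ a (a-1) ≤ S (S-1)` for `S = ∑ a` -/
theorem sum_choose_le {ι : Type*} (s : Finset ι) (a : ι → ℕ) (S : ℕ) (h : ∑ i ∈ s, a i = S) :
    ∑ i ∈ s, a i * (a i - 1) ≤ S * (S - 1) := by
  subst h
  rw [Finset.sum_mul]
  refine Finset.sum_le_sum fun i hi => Nat.mul_le_mul_left _ ?_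
  have := Finset.single_le_sum (f := a) (fun _ _ => Nat.zero_le _) hi
  omega

open Classical in
/-- G3 -/
theorem union_spectrum (k : ℕ) (hk : 0 < k) (Z : Finset ℕ) (hZ : Z.Nonempty)
    (J : ℕ → SimpleGraph (Fin k)) (ρ : ℕ → ℕ)
    (hJe : ∀ z ∈ Z, ecount (J z) univ = z)
    (hJd : ∀ z ∈ Z, ∀ v, (J z).degree v = 17 * ρ z ∨ (J z).degree v = 17 * ρ z + 1 ∨
      (J z).degree v = 18 * ρ z ∨ (J z).degree v = 18 * ρ z + 1)
    (hlow : ∀ z ∈ Z, k * k < 4 * z)
    (hsep : ∀ z ∈ Z, ∀ z' ∈ Z, ∀ m μ : ℕ, ∀ t : ℤ, 1 ≤ m → 2 * m ≤ k → 17 * m ≤ μ → μ ≤ 18 * m →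
      -(m : ℤ) ≤ t → t ≤ m * (m - 1) → (z' : ℤ) ≠ z - μ * ρ z + t)
    (P : Finset ℕ) (hP : P ⊆ Z) :
    ∃ N : ℕ, k ≤ N ∧ ∃ G : SimpleGraph (Fin N), spec k G ∩ (Z : Set ℕ) = (P : Set ℕ) := by
  obtain ⟨G', hG'⟩ := spec_transport k (unionGraph Z P J)
  refine ⟨_, ?_, G', ?_⟩
  · rw [Fintype.card_prod, Fintype.card_fin, Fintype.card_coe]
    exact Nat.le_mul_of_pos_left _ (Finset.card_pos.2 hZ)
  rw [hG']
  have hcount : ∀ A : Finset (Z × Fin k), 2 * ecount (unionGraph Z P J) A =
      ∑ z : Z, if z.1 ∈ P then 2 * ecount (J z.1) (slice A z) else 0 := by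
    intro A
    rw [← pcount_eq, pcount_union]
    refine Finset.sum_congr rfl fun z _ => ?_
    rw [pcount_eq]
  apply Set.Subset.antisymm
  · rintro z' ⟨⟨A, hA, he⟩, hz'⟩
    have hz'Z : z' ∈ Z := hz'
    have hlow' := hlow z' hz'Z
    have hsum := card_slice A
    rw [hA] at hsum
    have hc := hcount A
    rw [he] at hc
    -- pairs in a slice
    have hple : ∀ z : Z, (if z.1 ∈ P then 2 * ecount (J z.1) (slice A z) else 0)
        ≤ (slice A z).card * ((slice A z).card - 1) := by
      intro z
      split_ifs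
      · rw [← pcount_eq]; exact pcount_le _ _
      · exact Nat.zero_le _
    by_cases hbig : ∃ z0 : Z, k ≤ 2 * (slice A z0).card
    · obtain ⟨z0, hz0⟩ := hbig
      have hle : (slice A z0).card ≤ k := by
        have := Finset.card_le_univ (slice A z0)
        simpa using this
      set m := k - (slice A z0).card with hm
      have hrest : ∑ z ∈ univ.erase z0, (slice A z).card = m := by
        have := Finset.add_sum_erase univ (fun z : Z => (slice A z).card) (mem_univ z0)
        omega
      have hrest2 : ∑ z ∈ univ.erase z0,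
          (if z.1 ∈ P then 2 * ecount (J z.1) (slice A z) else 0) ≤ m * (m - 1) :=
        (Finset.sum_le_sum fun z _ => hple z).trans (sum_choose_le _ _ _ hrest)
      have hsplit := Finset.add_sum_erase univ
        (fun z : Z => if z.1 ∈ P then 2 * ecount (J z.1) (slice A z) else 0) (mem_univ z0)
      rw [← hc] at hsplit
      have h2m : 2 * m ≤ k := by omega
      by_cases hz0P : z0.1 ∈ P
      · rw [if_pos hz0P] at hsplit
        by_cases hm0 : m = 0
        · -- the whole component
          have hfull : slice A z0 = univ := by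
            rw [← Finset.card_eq_iff_eq_univ, Fintype.card_fin]
            omega
          rw [hm0] at hrest2
          rw [hfull, hJe _ z0.2] at hsplit
          have : z' = z0.1 := by omega
          rw [this]
          exact hz0P
        · exfalso
          set M := (slice A z0)ᶜ with hM
          have hMc : M.card = m := by
            rw [hM, Finset.card_compl, Fintype.card_fin]
          have hid := pcount_compl (J z0.1) M
          rw [hM, compl_compl, ← hM, pcount_eq, pcount_eq, pcount_eq, hJe _ z0.2] at hid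
          -- degrees
          have hdeg : ∃ μ i : ℕ, 17 * m ≤ μ ∧ μ ≤ 18 * m ∧ i ≤ m ∧
              ∑ v ∈ M, (J z0.1).degree v = μ * ρ z0.1 + i := by
            have : ∀ v, ∃ a i : ℕ, 17 ≤ a ∧ a ≤ 18 ∧ i ≤ 1 ∧
                (J z0.1).degree v = a * ρ z0.1 + i := by
              intro v
              rcases hJd _ z0.2 v with h | h | h | h
              · exact ⟨17, 0, by omega, by omega, by omega, by rw [h]; ring⟩
              · exact ⟨17, 1, by omega, by omega, by omega, by rw [h]⟩
              · exact ⟨18, 0, by omega, by omega, by omega, by rw [h]; ring⟩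
              · exact ⟨18, 1, by omega, by omega, by omega, by rw [h]⟩
            choose a i ha1 ha2 hi1 hai using this
            refine ⟨∑ v ∈ M, a v, ∑ v ∈ M, i v, ?_, ?_, ?_, ?_⟩
            · have := Finset.card_nsmul_le_sum M a 17 (fun v _ => ha1 v)
              rw [hMc, smul_eq_mul, mul_comm] at this
              exact this
            · have := Finset.sum_le_card_nsmul M a 18 (fun v _ => ha2 v)
              rw [hMc, smul_eq_mul, mul_comm] at this
              exact this
            · have := Finset.sum_le_card_nsmul M i 1 (fun v _ => hi1 v)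
              rw [hMc, smul_eq_mul, mul_one] at this
              exact this
            · rw [Finset.sum_congr rfl (fun v _ => hai v), Finset.sum_add_distrib,
                Finset.sum_mul]
          obtain ⟨μ, i, hμ1, hμ2, hi, hdeg⟩ := hdeg
          rw [hdeg] at hid
          have hMM := pcount_le (J z0.1) M
          rw [pcount_eq, hMc] at hMM
          set R := ∑ z ∈ univ.erase z0,
            (if z.1 ∈ P then 2 * ecount (J z.1) (slice A z) else 0) with hR
          have hm1 : 1 ≤ m := by omega
          have hcast : ((m * (m - 1) : ℕ) : ℤ) = (m : ℤ) * (m - 1) := by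
            rw [Nat.cast_mul, Nat.cast_sub hm1]; simp
          -- t = -i + e(M) + R/2
          have hReven : ∃ R', R = 2 * R' := ⟨z' - ecount (J z0.1) (slice A z0), by omega⟩
          obtain ⟨R', hR'⟩ := hReven
          refine hsep z0.1 z0.2 z' hz'Z m μ (-(i : ℤ) + ecount (J z0.1) M + R')
            (by omega) h2m hμ1 hμ2 ?_ ?_ ?_
          · have : (0 : ℤ) ≤ ecount (J z0.1) M := Int.natCast_nonneg _
            have : (0 : ℤ) ≤ R' := Int.natCast_nonneg _
            have : (i : ℤ) ≤ m := by exact_mod_cast hi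
            omega
          · have h1 : 2 * ecount (J z0.1) M + 2 * R' ≤ 2 * (m * (m - 1)) := by
              rw [hR'] at hrest2
              omega
            have h2 : ecount (J z0.1) M + R' ≤ m * (m - 1) := by omega
            have h3 : ((ecount (J z0.1) M : ℕ) : ℤ) + R' ≤ (m : ℤ) * (m - 1) := by
              rw [← hcast]; exact_mod_cast h2
            have : (0 : ℤ) ≤ i := Int.natCast_nonneg _
            linarith
          · rw [hR'] at hsplit
            have h1 : (2 * ecount (J z0.1) (slice A z0) + 2 * (μ * ρ z0.1 + i) : ℤ) =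
                2 * z0.1 + 2 * ecount (J z0.1) M := by exact_mod_cast hid
            have h2 : (2 * ecount (J z0.1) (slice A z0) + 2 * R' : ℤ) = 2 * z' := by
              exact_mod_cast hsplit
            linarith
      · exfalso
        rw [if_neg hz0P] at hsplit
        have h1 : 2 * z' ≤ m * (m - 1) := by omega
        have h2 : m * (m - 1) ≤ m * m := Nat.mul_le_mul_left _ (Nat.sub_le _ _)
        nlinarith
    · exfalso
      push Not at hbig
      have h1 : 4 * z' ≤ k * k := by
        have h2 : ∀ z : Z, 2 * (if z.1 ∈ P then 2 * ecount (J z.1) (slice A z) else 0)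
            ≤ (slice A z).card * k := by
          intro z
          have h3 := hple z
          have h4 := hbig z
          have h5 : (slice A z).card * ((slice A z).card - 1) * 2 ≤ (slice A z).card * k := by
            rw [mul_assoc]
            refine Nat.mul_le_mul_left _ ?_
            omega
          omega
        have h3 := Finset.sum_le_sum (s := univ) fun z _ => h2 z
        rw [← Finset.mul_sum, ← hc, ← Finset.sum_mul, hsum] at h3
        omega
      omega
  · intro z hz
    have hzP : z ∈ P := hz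
    have hzZ : z ∈ Z := hP hzP
    refine ⟨⟨univ.map ⟨fun i : Fin k => ((⟨z, hzZ⟩ : Z), i), fun i j h => by simpa using h⟩,
      by simp, ?_⟩, hzZ⟩
    set A : Finset (Z × Fin k) := univ.map
      ⟨fun i : Fin k => ((⟨z, hzZ⟩ : Z), i), fun i j h => by simpa using h⟩ with hA
    have hs1 : slice A ⟨z, hzZ⟩ = univ := by
      ext i; simp [slice, hA]
    have hs2 : ∀ z' : Z, z' ≠ ⟨z, hzZ⟩ → slice A z' = ∅ := by
      intro z' hne
      ext i
      simp only [slice, hA, mem_filter, mem_univ, true_and, mem_map, Function.Embedding.coeFn_mk,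
        notMem_empty, iff_false]
      rintro ⟨j, hj⟩
      exact hne (Prod.ext_iff.1 hj).1.symm
    have hc := hcount A
    rw [Finset.sum_eq_single (⟨z, hzZ⟩ : Z)] at hc
    · rw [if_pos hzP, hs1, hJe z hzZ] at hc
      omega
    · intro z' _ hne
      rw [hs2 z' hne]
      split_ifs
      · rw [← pcount_eq]; simp [pcount]
      · rfl
    · simp

end Pool.Agent.H37.SP
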